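import Pool.Agent.Y549.HSC.Code

set_option autoImplicit false

namespace Pool.Agent.Results.MP_51e3d2_lc.PrimitiveDecidable

open Pool.Agent.Y549.HSC

universe u

/-- There is an algorithm which, given the operation tables of a finite Heyting algebra `A`,
decides whether the quasivariety generated by `A` is primitive; the same algorithm decides whether
the deductive system `⊢_A` is hereditarily structurally complete. -/
theorem result : ∃ D : Code → Bool, Computable D ∧
    ∀ (n : ℕ) (A : Alg (Fin n)), IsHeyting A →
      (D (code A) = true ↔ Primitive.{u} A) ∧ (D (code A) = true ↔ (matSys A).HSC) := by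
  obtain ⟨_, hD⟩ := (pp_D1 : PrimrecPred D1)
  refine ⟨fun c => decide (D1 c), hD.to_comp, ?_⟩
  intro n A hA
  rw [decide_eq_true_iff, D1_iff, primitive_iff]
  exact ⟨Iff.rfl, (hsc_iff A hA.iffTop (matSys A) (fun _ _ _ => Iff.rfl)).symm⟩

end Pool.Agent.Results.MP_51e3d2_lc.PrimitiveDecidable
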